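import Mathlib
import Pool.Agent.V8H84.GL.Final

set_option autoImplicit false

/-!
# Superposition of clusters of fat points

General points of the complex projective plane, arbitrary multiplicities `w i`. A group `S` of the
points is a cluster of size `b ≥ 1` if the number of its conditions lies between those of a point
of multiplicity `b` and of a point of multiplicity `b + 1`, and the linear systems with the
multiplicities `w i` at the points of `S` are not special in the two degrees `b - 1` and `b`.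

* If the points are divided into `N` clusters of sizes `b j` and the systems `(d; u)` with `N` points
  are not special for all `u` with `u j = b j` or `u j = b j + 1`, then `(d; w)` is not special.
* For `4 ≤ N ≤ 9` it suffices that `b i + b j + b k + 3 ≤ d` for all distinct `i`, `j`, `k`.
* If `N` is a square `k ^ 2 ≥ 4`, or `13`, or `4 k ≥ 144`, or `N ≥ N0`, and all sizes are equal,
  then `w` is not special in every degree. Clusters are for instance: one point, a number of points
  as before with multiplicities `μ`, `μ + 1`, `21` or at least `37` points of equal multiplicity,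
  arbitrary multiplicities `≤ μ` of sum at least `25000 (μ + 1) ^ 2`, always with the right number
  of conditions.
* All near-uniform systems with `52` points are nonspecial.
* Classes carried by reflections to a standard superposed class are not special, and the
  Harbourne-Hirschowitz conjecture holds for all classes whose reduced form is superposed.
-/

namespace Pool.Agent.Results.MP_6b2d39_ag.SuperpositionOfClusters

open MvPolynomial Pool.Agent.TH167.SHDefs

/-- For general points the linear system `(d; w)` has the expected dimension. -/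
def Expected {n : ℕ} (d : ℕ) (w : Fin n → ℕ) : Prop :=
  ∃ F : MvPolynomial (Fin n × Fin 2) ℂ, F ≠ 0 ∧ ∀ P : Fin n → Fin 2 → ℂ,
    MvPolynomial.eval (fun ij : Fin n × Fin 2 => P ij.1 ij.2) F ≠ 0 →
      dimL P d w = max (virtdim d w) (-1)

/-- The same in all degrees, for the points of one open set. -/
def NeverSpecial {n : ℕ} (w : Fin n → ℕ) : Prop :=
  ∃ F : MvPolynomial (Fin n × Fin 2) ℂ, F ≠ 0 ∧ ∀ P : Fin n → Fin 2 → ℂ,
    MvPolynomial.eval (fun ij : Fin n × Fin 2 => P ij.1 ij.2) F ≠ 0 →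
      ∀ d : ℕ, dimL P d w = max (virtdim d w) (-1)

/-- The number of conditions of the group `S` lies between those of a point of multiplicity `b` and
of a point of multiplicity `b + 1`. -/
def Window {n : ℕ} (w : Fin n → ℕ) (S : Finset (Fin n)) (b : ℕ) : Prop :=
  1 ≤ b ∧ (b + 1).choose 2 ≤ ∑ i ∈ S, (w i + 1).choose 2 ∧
    ∑ i ∈ S, (w i + 1).choose 2 ≤ (b + 2).choose 2

/-- The group `S` is a cluster of size `b`. -/
def Cluster {n : ℕ} (w : Fin n → ℕ) (S : Finset (Fin n)) (b : ℕ) : Prop :=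
  Window w S b ∧ Expected (b - 1) (fun i => if i ∈ S then w i else 0) ∧
    Expected b (fun i => if i ∈ S then w i else 0)

/-- The `j`-th group. -/
def group {n N : ℕ} (g : Fin n → Fin N) (j : Fin N) : Finset (Fin n) :=
  Finset.univ.filter fun i => g i = j

/-- The group `S` is one point of multiplicity `b`. -/
def Single {n : ℕ} (w : Fin n → ℕ) (S : Finset (Fin n)) (b : ℕ) : Prop := ∃ i, S = {i} ∧ w i = b

/-- The points are divided into single points of multiplicity `b j` and clusters of size `b j`, and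
`(d; u)` has the expected dimension for general points for all `u` with `u j = b j`, or
`u j = b j + 1` if the `j`-th group is not a single point of multiplicity `b j`. -/
def Superposed {n : ℕ} (d : ℕ) (w : Fin n → ℕ) : Prop :=
  ∃ (N : ℕ) (g : Fin n → Fin N) (b : Fin N → ℕ),
    (∀ j, Single w (group g j) (b j) ∨ Cluster w (group g j) (b j)) ∧
    ∀ u : Fin N → ℕ, (∀ j, u j = b j ∨ (u j = b j + 1 ∧ ¬ Single w (group g j) (b j))) →
      Expected d u

/-- `N` is a square at least `4`, or `13`, or `4 k ≥ 144`, or at least `N0`. -/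
def Base (N0 N : ℕ) : Prop :=
  (∃ k : ℕ, 2 ≤ k ∧ N = k ^ 2) ∨ N = 13 ∨ (144 ≤ N ∧ 4 ∣ N) ∨ N0 ≤ N

/-- Groups which are clusters of size `b`: one point or `Base` many points of multiplicities `μ`,
`μ + 1`; `21` or at least `37` points of multiplicity `μ`; multiplicities at most `μ` with a large
sum. -/
def Regular (N0 : ℕ) {n : ℕ} (w : Fin n → ℕ) (S : Finset (Fin n)) (b : ℕ) : Prop :=
  Window w S b ∧ ∃ μ : ℕ, 1 ≤ μ ∧
    (((S.card = 1 ∨ Base N0 S.card) ∧ ∀ i ∈ S, w i = μ ∨ w i = μ + 1) ∨
      ((S.card = 21 ∨ 37 ≤ S.card) ∧ ∀ i ∈ S, w i = μ) ∨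
      ((∀ i ∈ S, w i ≤ μ) ∧ 25000 * (μ + 1) ^ 2 ≤ ∑ i ∈ S, w i))

/-- The class is standard. -/
def Standard {n : ℕ} (d : ℕ) (w : Fin n → ℕ) : Prop :=
  ∀ i j k : Fin n, i ≠ j → i ≠ k → j ≠ k → w i + w j + w k ≤ d

/-- The reflection of the class `a = (d; w)`, `d H - ∑ w l E l`, in the class
`H - E (i 0) - E (i 1) - E (i 2)`: with `δ = d - w (i 0) - w (i 1) - w (i 2)`, the numbers
`d`, `w (i 0)`, `w (i 1)`, `w (i 2)` are increased by `δ`. -/
def reflect {n : ℕ} (i : Fin 3 → Fin n) (a : ℤ × (Fin n → ℤ)) : ℤ × (Fin n → ℤ) :=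
  (a.1 + (a.1 - a.2 (i 0) - a.2 (i 1) - a.2 (i 2)),
    fun l => a.2 l + if l = i 0 ∨ l = i 1 ∨ l = i 2 then a.1 - a.2 (i 0) - a.2 (i 1) - a.2 (i 2)
      else 0)

/-- Finitely many reflections carry `(d; w)` to `(d'; w')`. -/
def Carries {n : ℕ} (d : ℕ) (w : Fin n → ℕ) (d' : ℕ) (w' : Fin n → ℕ) : Prop :=
  Relation.ReflTransGen
    (fun a b : ℤ × (Fin n → ℤ) => ∃ i : Fin 3 → Fin n, Function.Injective i ∧ b = reflect i a)
    ((d : ℤ), fun l => (w l : ℤ)) ((d' : ℤ), fun l => (w' l : ℤ))

open Pool.Agent.V8H84.GL in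
theorem nd_of_expected {n d : ℕ} {w : Fin n → ℕ} (h : Expected d w) : NDw w d := by
  obtain ⟨F, hF, hF'⟩ := h
  refine nd_of_gen hF fun P hP => ?_
  have h1 := hF' P hP
  unfold dimL virtdim at h1
  have h2 : ∑ i, ((w i + 1).choose 2 : ℤ) = ((∑ i, Nat.choose (w i + 1) 2 : ℕ) : ℤ) := by
    push_cast
    rfl
  rw [h2] at h1
  show Module.finrank ℂ ↥(sys P d w) = Nat.choose (d + 2) 2 - ∑ i, Nat.choose (w i + 1) 2
  omega

theorem dim_of_expDim {n d : ℕ} {w : Fin n → ℕ} {P : Fin n → Fin 2 → ℂ}
    (h : Pool.Agent.H932R3.ExpDim ℂ w P d) : dimL P d w = max (virtdim d w) (-1) := by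
  have h1 : Module.finrank ℂ ↥(sys P d w) =
      Nat.choose (d + 2) 2 - ∑ i, Nat.choose (w i + 1) 2 := h
  have h2 : ∑ i, ((w i + 1).choose 2 : ℤ) = ((∑ i, Nat.choose (w i + 1) 2 : ℕ) : ℤ) := by
    push_cast
    rfl
  unfold dimL virtdim
  rw [h1, h2]
  omega

open Pool.Agent.V8H84.GL in
theorem expected_of_nd {n d : ℕ} {w : Fin n → ℕ} (h : NDw w d) : Expected d w := by
  obtain ⟨F, hF, hF'⟩ := open_of_nd h
  refine ⟨F.map (algebraMap ℚ ℂ), Pool.Agent.H932R3.map_ne_zero_of hF, fun P hP => ?_⟩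
  rw [MvPolynomial.eval_map] at hP
  exact dim_of_expDim (hF' P hP)

open Pool.Agent.V8H84.GL in
theorem never_of_nd {n : ℕ} {w : Fin n → ℕ} (h : ∀ d, NDw w d) : NeverSpecial w := by
  obtain ⟨F, hF, hF'⟩ := Pool.Agent.TH864.SX.expDim_of_or h
  refine ⟨F.map (algebraMap ℚ ℂ), Pool.Agent.H932R3.map_ne_zero_of hF, fun P hP d => ?_⟩
  rw [MvPolynomial.eval_map] at hP
  exact dim_of_expDim (hF' P hP d)

open Pool.Agent.V8H84.GL in
theorem cluster_nd {n N : ℕ} {w : Fin n → ℕ} {g : Fin n → Fin N} {j : Fin N} {b : ℕ}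
    (h : Cluster w (group g j) b) :
    NDw (fun i : {i // g i = j} => w i) (b - 1) ∧ NDw (fun i : {i // g i = j} => w i) b := by
  have hp : ∀ i, g i = j ↔ i ∈ group g j := fun i => by
    unfold group
    simp
  exact ⟨nd_sub hp (nd_of_expected h.2.1), nd_sub hp (nd_of_expected h.2.2)⟩

open Pool.Agent.V8H84.GL in
theorem regular_nd {N0 n N : ℕ} (H : ∀ N b : ℕ, Pool.Agent.V8H84.GL.Base N0 N → 1 ≤ b →
      ∀ u : Fin N → ℕ, (∀ j, u j = b ∨ u j = b + 1) → ∀ d, NDw u d)
    {w : Fin n → ℕ} {g : Fin n → Fin N} {j : Fin N} {b : ℕ}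
    (h : Regular N0 w (group g j) b) (d : ℕ) : NDw (fun i : {i // g i = j} => w i) d := by
  have hp : ∀ i, g i = j ↔ i ∈ group g j := fun i => by
    unfold group
    simp
  have hcard : Fintype.card {i // g i = j} = (group g j).card := by
    rw [Fintype.card_subtype]
    rfl
  obtain ⟨-, μ, hμ, ⟨h1, h2⟩ | ⟨h1, h2⟩ | ⟨h1, h2⟩⟩ := h
  · rw [← hcard] at h1
    exact nd_near (κ := {i // g i = j}) (R := fun i => w i) H hμ h1
      (fun i => h2 i ((hp i).1 i.2)) d
  · rw [← hcard] at h1
    exact nd_uniform (κ := {i // g i = j}) (R := fun i => w i) hμ h1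
      (fun i => h2 i ((hp i).1 i.2)) d
  · refine nd_large (κ := {i // g i = j}) (R := fun i => w i) (μ := μ)
      (fun i => h1 i ((hp i).1 i.2)) ?_ d
    rw [Finset.sum_subtype (group g j) (fun i => (hp i).symm) w] at h2
    exact h2

open Pool.Agent.V8H84.GL in
theorem superposed_nd {n d : ℕ} {w : Fin n → ℕ} (h : Superposed d w) : NDw w d := by
  obtain ⟨N, g, b, h1, h2⟩ := h
  have h3 : ∀ j, ¬ Single w (group g j) (b j) → Cluster w (group g j) (b j) :=
    fun j hj => (h1 j).resolve_left hj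
  exact superposed g (fun j => Single w (group g j) (b j)) (fun j hj => hj)
    (fun j hj => (h3 j hj).1.1) (fun j hj => (h3 j hj).1.2.1) (fun j hj => (h3 j hj).1.2.2)
    (fun j hj => (cluster_nd (h3 j hj)).1) (fun j hj => (cluster_nd (h3 j hj)).2)
    (fun u hu => nd_of_expected (h2 u hu))

open Pool.Agent.V8H84.GL in
theorem result :
    -- superposition in one degree
    (∀ (n d : ℕ) (w : Fin n → ℕ), Superposed d w → Expected d w) ∧
    -- four to nine clusters of arbitrary sizes
    (∀ (n N d : ℕ) (w : Fin n → ℕ) (g : Fin n → Fin N) (b : Fin N → ℕ), 4 ≤ N → N ≤ 9 →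
      (∀ j, Cluster w (group g j) (b j)) →
      (∀ i j k, i ≠ j → i ≠ k → j ≠ k → b i + b j + b k + 3 ≤ d) → Expected d w) ∧
    -- all degrees
    (∃ N0 : ℕ, ∀ (n N b : ℕ) (w : Fin n → ℕ) (g : Fin n → Fin N), Base N0 N →
      (∀ j, Cluster w (group g j) b ∨ Regular N0 w (group g j) b) → NeverSpecial w) ∧
    -- near-uniform systems with 52 points
    (∀ m : ℕ, 1 ≤ m → ∀ w : Fin 52 → ℕ, (∀ i, w i = m ∨ w i = m + 1) → NeverSpecial w) ∧
    -- Weyl group orbits, and the conjecture
    (∀ (n : ℕ), 4 ≤ n → ∀ (d : ℕ) (w : Fin n → ℕ),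
      (∀ (d' : ℕ) (w' : Fin n → ℕ), Carries d w d' w' → Standard d' w' → Superposed d' w' →
        Expected d w) ∧
      ∃ F : MvPolynomial (Fin n × Fin 2) ℂ, F ≠ 0 ∧ ∀ P : Fin n → Fin 2 → ℂ,
        MvPolynomial.eval (fun ij : Fin n × Fin 2 => P ij.1 ij.2) F ≠ 0 →
          (MinusOneSpecial P d w → Special P d w) ∧
          (Special P d w → MinusOneSpecial P d w ∨
            ∃ (d'' : ℕ) (w'' : Fin n → ℕ) (k : ℕ) (G : Fin k → MvPolynomial (Fin 3) ℂ)
              (e : Fin k → ℕ) (u : Fin k → Fin n → ℕ) (M : Fin k → ℕ) (d' : ℕ) (w' : Fin n → ℕ),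
              Decomp P d w d'' w'' G e u M ∧
              Relation.ReflTransGen Quadratic (d'', w'') (d', w') ∧ Standard d' w' ∧
              Special P d' w' ∧ ¬ Superposed d' w')) := by
  refine ⟨fun n d w h => expected_of_nd (superposed_nd h), ?_, ?_, ?_, ?_⟩
  · intro n N d w g b h4 h9 hcl hd
    refine expected_of_nd (superposed g (fun _ => False) (fun j hj => hj.elim)
      (fun j _ => (hcl j).1.1) (fun j _ => (hcl j).1.2.1) (fun j _ => (hcl j).1.2.2)
      (fun j _ => (cluster_nd (hcl j)).1) (fun j _ => (cluster_nd (hcl j)).2)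
      fun u hu => nd_nine h4 h9 fun i j k hij hik hjk => ?_)
    have h1 := hd i j k hij hik hjk
    rcases hu i with h2 | ⟨h2, -⟩ <;> rcases hu j with h3 | ⟨h3, -⟩ <;>
      rcases hu k with h5 | ⟨h5, -⟩ <;> omega
  · obtain ⟨N0, H⟩ := exists_base
    refine ⟨N0, fun n N b w g hN hcl => never_of_nd fun d => ?_⟩
    have hnd : ∀ j, NDw (fun i : {i // g i = j} => w i) (b - 1) ∧
        NDw (fun i : {i // g i = j} => w i) b := by
      intro j
      rcases hcl j with h | h
      · exact cluster_nd h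
      · exact ⟨regular_nd H h _, regular_nd H h _⟩
    have hwin : ∀ j, Window w (group g j) b := by
      intro j
      rcases hcl j with h | h
      · exact h.1
      · exact h.1
    rcases Nat.eq_zero_or_pos b with h0 | hb
    · subst h0
      rcases Nat.eq_zero_or_pos N with hN0 | hN0
      · subst hN0
        refine superposed g (b := fun _ => 0) (fun _ => False) (fun j => j.elim0)
          (fun j => j.elim0) (fun j => j.elim0) (fun j => j.elim0) (fun j => j.elim0)
          (fun j => j.elim0) fun u _ => Or.inr ⟨∅, ?_, ?_, ?_⟩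
        · simp
        · rfl
        · simpa using Pool.Agent.TH603.Sur.Emp_empty u
      · exact absurd (hwin ⟨0, hN0⟩).1 (by omega)
    · exact superposed g (b := fun _ => b) (fun _ => False) (fun j hj => hj.elim) (fun j _ => hb)
        (fun j _ => (hwin j).2.1) (fun j _ => (hwin j).2.2) (fun j _ => (hnd j).1)
        (fun j _ => (hnd j).2)
        (fun u hu => H N b hN hb u (fun j => (hu j).imp_right fun h => h.1) d)
  · intro m hm w hw
    refine never_of_nd fun d => ?_
    refine near_mul4 (N := 13) (fun b _ u hu => ?_) hm hw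
    obtain ⟨F, hF, hF'⟩ := Pool.Agent.TH759.EV.expDim_thirteen hu
    exact nd_of_rat hF fun P hP => hF' P hP d
  · intro n hn d w
    have key : ∀ {d' : ℕ} {w' : Fin n → ℕ}, Superposed d' w' → ∀ {K : Type} [Field K] [CharZero K]
        {P : Fin n → Fin 2 → K}, AlgebraicIndependent ℚ (fun ij : Fin n × Fin 2 => P ij.1 ij.2) →
        Pool.Agent.H932R3.ExpDim K w' P d' := by
      intro d' w' h K _ _ P hP
      obtain ⟨F, hF, hF'⟩ := open_of_nd (superposed_nd h)
      exact hF' P fun h0 => hF (hP.eq_zero_of_aeval_eq_zero F h0)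
    refine ⟨fun d' w' hc hs hG => ?_, ?_⟩
    · exact expected_of_nd (nd_of_generic fun {K} _ _ {P} hP =>
        Pool.Agent.TH442.NF.up_enef hP hc (Pool.Agent.TH442.NF.enef_of_std hn P hs) (key hG hP))
    · exact Pool.Agent.TH442.NF.hh_open hn (Q := fun d' w' => Superposed d' w')
        (fun hP _ _ _ hG => key hG hP) d w

end Pool.Agent.Results.MP_6b2d39_ag.SuperpositionOfClusters
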