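import Mathlib
import Pool.Agent.V8H22.TP.Z

set_option autoImplicit false

/-!
# Ten general points: the Harbourne-Hirschowitz conjecture outside of a narrow explicit region

Ten is the first open number of points. Let `w i` be any multiplicities at ten general points of the complex projective
plane, `S = ∑ w i`, `Q = ∑ (w i) ^ 2`, `D = (d; w)`, so that `K D = S - 3 d`, `D ^ 2 = d ^ 2 - Q`.

(1) The linear system `(d; w)` is special if and only if it is `(-1)`-special in each of the following cases:
* `K D ≤ 5` (so for every `w` in all degrees `d ≥ (S - 5) / 3`; `(-1)`-curves with `D C < 0` are allowed);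
* `D ^ 2 < - (K D) ^ 2`;
* `D ^ 2 ≥ d (K D)`, or the sharper inequality with a number `t`, for instance the smallest `t` with `t ^ 2 > 10 (K D + 1) ^ 2`
  (about `D ^ 2 ≥ 0.6325 (K D + 1) (d - 3 K D) - 2 (K D) ^ 2`);
* `10 d ^ 2 < S ^ 2` (this case is in the starting library).

(2) It holds in ALL degrees for every vector `w` with `S ^ 2 + 360 < 9 Q + 12 S`, or with `S ≤ 116`. So it holds in all degrees for all
`w` whose standard deviation is at least a third of the mean: outside of a cone around the diagonal with the angle `arctan (1 / 3)`.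

Proof. Let `D` be special but not `(-1)`-special. By the starting library `D = M + ∑ N a C a` with `(-1)`-curves `C a`, `M C a = 0`, where
`M` is carried by quadratic transformations to a standard class with `K M ≥ 6`. As `K ^ 2 = -1` for ten points, we can project to the
orthogonal complement of `K`, a hyperbolic lattice. The projection of a standard class is in the closed forward light cone `L`. This is invariant
under the transformations, and it implies `M C ≥ K M ≥ 6` for all `(-1)`-classes `C` (the projections of `C` are isotropic). So `D = M`.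
In particular `D ^ 2 + (K D) ^ 2 ≥ 0`, `d ≥ 3 K D`, and these inequalities and `K D ≥ 6` give (2).

For the third case we show: if `D0` is a nonspecial effective class with `K D0 ≥ 1` and projection in the interior of `L`, then every class `D` with
`K D = K D0` and `D - D0` in `L` is nonspecial. We reduce `D - D0` by quadratic transformations to a standard vector. Then a cubic `E` through nine of the
points can be subtracted without leaving `L`, and `h ^ 1 (D) ≤ h ^ 1 (D - E)`, since the system restricted to `E` has positive degree. That is applied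
to near-uniform classes `D0` which are nonspecial by the starting library.
-/

namespace Pool.Agent.Results.MP_6b2d39_ag.TenPoints

open MvPolynomial Pool.Agent.TH167

/-- The Harbourne-Hirschowitz conjecture for the class `(d; w)`, for all points outside of a
hypersurface. -/
def HH {n : ℕ} (d : ℕ) (w : Fin n → ℕ) : Prop :=
  ∃ F : MvPolynomial (Fin n × Fin 2) ℂ, F ≠ 0 ∧
    ∀ P : Fin n → Fin 2 → ℂ, MvPolynomial.eval (fun ij : Fin n × Fin 2 => P ij.1 ij.2) F ≠ 0 →
      (SHDefs.Special P d w ↔ SHDefs.MinusOneSpecial P d w)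

/-- **Main result.** -/
theorem result (w : Fin 10 → ℕ) (S Q : ℤ) (hS : S = ∑ i, (w i : ℤ)) (hQ : Q = ∑ i, (w i : ℤ) ^ 2) :
    (∀ (d : ℕ) (κ : ℤ), κ = S - 3 * d →
      (κ ≤ 5 ∨ (d : ℤ) ^ 2 - Q < - κ ^ 2 ∨ κ * d ≤ (d : ℤ) ^ 2 - Q ∨ 10 * (d : ℤ) ^ 2 < S ^ 2 ∨
        ∃ t : ℕ, (t : ℤ) ≤ d - 3 * κ ∧ 10 * (κ + 1) ^ 2 < (t : ℤ) ^ 2 ∧
          2 * (d - 3 * κ) * t + 25 ≤ 10 * ((d : ℤ) ^ 2 - Q + κ ^ 2) + t ^ 2) →
      HH d w) ∧
    (S ≤ 116 ∨ S ^ 2 + 360 < 9 * Q + 12 * S → ∀ d : ℕ, HH d w) := by
  have hS' : S = Pool.Agent.V8H22.TP.sm w := hS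
  have hQ' : Q = Pool.Agent.V8H22.TP.sq w := hQ
  rw [hS', hQ']
  constructor
  · intro d κ hκ h
    by_contra hcon
    obtain ⟨⟨-, h1⟩, h2, h3, h4⟩ := Pool.Agent.V8H22.TP.main hcon
    have h5 := Pool.Agent.V8H22.TP.self_lt hcon
    rw [← hκ] at h1 h2 h4 h5
    rcases h with h | h | h | h | ⟨t, t1, t2, t3⟩
    · omega
    · linarith
    · linarith
    · linarith
    · have := h4 t t1 t2
      linarith
  · intro h d
    by_contra hcon
    obtain ⟨h1, h2⟩ := Pool.Agent.V8H22.TP.all_deg hcon
    rcases h with h | h
    · omega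
    · linarith

end Pool.Agent.Results.MP_6b2d39_ag.TenPoints
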